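import Pool.Agent.H32.AA.One

set_option autoImplicit false

/-!
MP_a46c6f_co, rooted (TREE) by the P4 route: if the inverse matrix `M` of the reduced Laplacian of a
graph with root `r` (extended by a zero row at `r`) has midpoints for all closed pairs and no
induced path on four vertices, then the graph is a tree.
-/

namespace Pool.Agent.H26.P3

open Finset

theorem z2 (a : ZMod 2) : a = 0 ∨ a = 1 := by
  revert a
  decide

theorem z2_add_self (a : ZMod 2) : a + a = 0 := by
  revert a
  decide

theorem z2_ne {a b : ZMod 2} (h : a ≠ b) : a = b + 1 := by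
  revert a b
  decide

theorem z2_ne' {a b : ZMod 2} (h : a = b) : a ≠ b + 1 := by
  revert a b
  decide

theorem z2_ne_ne {a b c : ZMod 2} (h1 : a ≠ c) (h2 : b ≠ c) : a = b := by
  revert a b c
  decide

section cograph

variable {V : Type} [DecidableEq V]

/-- `M` has no induced path on four vertices -/
def P4Free (M : V → V → ZMod 2) : Prop :=
  ∀ a b c d, M a b = 1 → M b c = 1 → M c d = 1 → M a c = 0 → M a d = 0 → M b d = 0 → False

omit [DecidableEq V] in
/-- no induced path for the relation `M x y = t` -/
theorem p4_t (M : V → V → ZMod 2) (hs : ∀ u v, M u v = M v u) (h : P4Free M) (t : ZMod 2)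
    (a b c d : V) (h1 : M a b = t) (h2 : M b c = t) (h3 : M c d = t)
    (h4 : M a c ≠ t) (h5 : M a d ≠ t) (h6 : M b d ≠ t) : False := by
  rcases z2 t with rfl | rfl
  · have g4 : M a c = 1 := by
      rcases z2 (M a c) with h | h
      · exact absurd h h4
      · exact h
    have g5 : M a d = 1 := by
      rcases z2 (M a d) with h | h
      · exact absurd h h5
      · exact h
    have g6 : M b d = 1 := by
      rcases z2 (M b d) with h | h
      · exact absurd h h6
      · exact h
    exact h c a d b (by rw [hs]; exact g4) g5 (by rw [hs]; exact g6) h3 (by rw [hs]; exact h2) h1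
  · have g4 : M a c = 0 := by
      rcases z2 (M a c) with h | h
      · exact h
      · exact absurd h h4
    have g5 : M a d = 0 := by
      rcases z2 (M a d) with h | h
      · exact h
      · exact absurd h h5
    have g6 : M b d = 0 := by
      rcases z2 (M b d) with h | h
      · exact h
      · exact absurd h h6
    exact h a b c d h1 h2 h3 g4 g5 g6

/-- a set with at least two elements splits in two parts with constant `M` between -/
theorem exists_split (M : V → V → ZMod 2) (hs : ∀ u v, M u v = M v u) (h : P4Free M) :
    ∀ (S : Finset V), 2 ≤ S.card → ∃ A, A ⊆ S ∧ A.Nonempty ∧ (S \ A).Nonempty ∧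
      ∃ t, ∀ a ∈ A, ∀ b ∈ S \ A, M a b = t := by
  intro S
  induction S using Finset.induction_on with
  | empty => intro h0; simp at h0
  | insert x S hx ih =>
    intro hcard
    rw [Finset.card_insert_of_notMem hx] at hcard
    by_cases hS : 2 ≤ S.card
    · obtain ⟨A, hAS, hA, hB, t, ht⟩ := ih hS
      -- all of `S` at `x`
      by_cases hall : ∀ y ∈ S, M x y ≠ t
      · -- `x` alone
        refine ⟨{x}, ?_, ⟨x, Finset.mem_singleton_self x⟩, ?_, t + 1, ?_⟩
        · intro y hy
          rw [Finset.mem_singleton] at hy
          rw [hy]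
          exact Finset.mem_insert_self x S
        · obtain ⟨y, hy⟩ := hA
          refine ⟨y, Finset.mem_sdiff.2 ⟨Finset.mem_insert_of_mem (hAS hy), ?_⟩⟩
          rw [Finset.mem_singleton]
          rintro rfl
          exact hx (hAS hy)
        · intro a ha b hb
          rw [Finset.mem_singleton] at ha
          subst ha
          obtain ⟨hb1, hb2⟩ := Finset.mem_sdiff.1 hb
          rw [Finset.mem_singleton] at hb2
          exact z2_ne (hall b ((Finset.mem_insert.1 hb1).resolve_left hb2))
      · push Not at hall
        obtain ⟨y₀, hy₀, hy₀t⟩ := hall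
        -- a general step: `P` a part containing `y₀`, `Q` the other part
        have step : ∀ P Q : Finset V, P ⊆ S → Q ⊆ S → (∀ y ∈ S, y ∈ P ∨ y ∈ Q) →
            (∀ y ∈ P, y ∉ Q) → (∀ a ∈ P, ∀ b ∈ Q, M a b = t) → y₀ ∈ P → Q.Nonempty →
            ∃ A, A ⊆ insert x S ∧ A.Nonempty ∧ (insert x S \ A).Nonempty ∧
              ∃ t, ∀ a ∈ A, ∀ b ∈ insert x S \ A, M a b = t := by
          intro P Q hP hQ hcov hdis hPQ hyP hQne
          by_cases hq : ∀ b ∈ Q, M x b = t
          · refine ⟨Q, fun y hy => Finset.mem_insert_of_mem (hQ hy), hQne, ?_, t, ?_⟩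
            · exact ⟨x, Finset.mem_sdiff.2 ⟨Finset.mem_insert_self x S, fun h0 => hx (hQ h0)⟩⟩
            · intro a ha b hb
              obtain ⟨hb1, hb2⟩ := Finset.mem_sdiff.1 hb
              rcases Finset.mem_insert.1 hb1 with rfl | hb3
              · rw [hs]
                exact hq a ha
              · rcases hcov b hb3 with h1 | h1
                · rw [hs]
                  exact hPQ b h1 a ha
                · exact absurd h1 hb2
          · push Not at hq
            obtain ⟨q, hqQ, hqt⟩ := hq
            by_cases hp : ∀ a ∈ P, ∀ b ∈ P, M x a ≠ t → M x b = t → M a b = t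
            · refine ⟨P.filter fun a => M x a = t, ?_, ?_, ?_, t, ?_⟩
              · intro y hy
                exact Finset.mem_insert_of_mem (hP (Finset.mem_filter.1 hy).1)
              · exact ⟨y₀, Finset.mem_filter.2 ⟨hyP, hy₀t⟩⟩
              · refine ⟨x, Finset.mem_sdiff.2 ⟨Finset.mem_insert_self x S, fun h0 => ?_⟩⟩
                exact hx (hP (Finset.mem_filter.1 h0).1)
              · intro a ha b hb
                obtain ⟨ha1, ha2⟩ := Finset.mem_filter.1 ha
                obtain ⟨hb1, hb2⟩ := Finset.mem_sdiff.1 hb
                rcases Finset.mem_insert.1 hb1 with rfl | hb3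
                · rw [hs]
                  exact ha2
                · rcases hcov b hb3 with h1 | h1
                  · rw [hs]
                    refine hp b h1 a ha1 ?_ ha2
                    intro h2
                    exact hb2 (Finset.mem_filter.2 ⟨h1, h2⟩)
                  · exact hPQ a ha1 b h1
            · exfalso
              push Not at hp
              obtain ⟨a, haP, b, hbP, h1, h2, h3⟩ := hp
              have hne : ∀ s : ZMod 2, s = t → s ≠ t + 1 := fun s hs0 => z2_ne' hs0
              exact p4_t M hs h (t + 1) q x a b (by rw [hs]; exact z2_ne hqt) (z2_ne h1) (z2_ne h3)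
                (hne _ (by rw [hs]; exact hPQ a haP q hqQ)) (hne _ (by rw [hs]; exact hPQ b hbP q hqQ))
                (hne _ h2)
        rcases em (y₀ ∈ A) with hyA | hyA
        · exact step A (S \ A) hAS Finset.sdiff_subset (fun y hy => by
            by_cases h1 : y ∈ A
            · exact Or.inl h1
            · exact Or.inr (Finset.mem_sdiff.2 ⟨hy, h1⟩))
            (fun y hy h1 => (Finset.mem_sdiff.1 h1).2 hy) ht hyA hB
        · exact step (S \ A) A Finset.sdiff_subset hAS (fun y hy => by
            by_cases h1 : y ∈ A
            · exact Or.inr h1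
            · exact Or.inl (Finset.mem_sdiff.2 ⟨hy, h1⟩))
            (fun y hy h1 => (Finset.mem_sdiff.1 hy).2 h1)
            (fun a ha b hb => by rw [hs]; exact ht b hb a ha) (Finset.mem_sdiff.2 ⟨hy₀, hyA⟩) hA
    · have hS1 : S.card = 1 := by omega
      obtain ⟨y, rfl⟩ := Finset.card_eq_one.1 hS1
      rw [Finset.mem_singleton] at hx
      refine ⟨{x}, ?_, ⟨x, Finset.mem_singleton_self x⟩, ?_, M x y, ?_⟩
      · intro w hw
        rw [Finset.mem_singleton] at hw
        rw [hw]
        exact Finset.mem_insert_self _ _
      · refine ⟨y, Finset.mem_sdiff.2 ⟨?_, ?_⟩⟩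
        · exact Finset.mem_insert_of_mem (Finset.mem_singleton_self y)
        · rw [Finset.mem_singleton]
          exact fun h0 => hx h0.symm
      · intro a ha b hb
        rw [Finset.mem_singleton] at ha
        subst ha
        obtain ⟨hb1, hb2⟩ := Finset.mem_sdiff.1 hb
        rw [Finset.mem_singleton] at hb2
        have := Finset.mem_singleton.1 ((Finset.mem_insert.1 hb1).resolve_left hb2)
        rw [this]

/-- a set with at least two elements has twins -/
theorem exists_twins (M : V → V → ZMod 2) (hs : ∀ u v, M u v = M v u) (h : P4Free M) :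
    ∀ (n : ℕ) (S : Finset V), S.card = n → 2 ≤ n → ∃ u ∈ S, ∃ v ∈ S, u ≠ v ∧
      ∀ x ∈ S, x ≠ u → x ≠ v → M u x = M v x := by
  intro n
  induction n using Nat.strong_induction_on with
  | _ n ih =>
    intro S hSn hn
    obtain ⟨A, hAS, hA, hB, t, ht⟩ := exists_split M hs h S (by omega)
    have hc : (S \ A).card = S.card - A.card := Finset.card_sdiff_of_subset hAS
    have hA1 : 1 ≤ A.card := Finset.card_pos.2 hA
    have hB1 : 1 ≤ (S \ A).card := Finset.card_pos.2 hB
    by_cases h2 : 2 ≤ A.card
    · obtain ⟨u, hu, v, hv, huv, hx⟩ := ih A.card (by omega) A rfl h2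
      refine ⟨u, hAS hu, v, hAS hv, huv, ?_⟩
      intro x hxS hxu hxv
      by_cases hxA : x ∈ A
      · exact hx x hxA hxu hxv
      · rw [ht u hu x (Finset.mem_sdiff.2 ⟨hxS, hxA⟩), ht v hv x (Finset.mem_sdiff.2 ⟨hxS, hxA⟩)]
    · by_cases h3 : 2 ≤ (S \ A).card
      · obtain ⟨u, hu, v, hv, huv, hx⟩ := ih (S \ A).card (by omega) (S \ A) rfl h3
        refine ⟨u, Finset.sdiff_subset hu, v, Finset.sdiff_subset hv, huv, ?_⟩
        intro x hxS hxu hxv
        by_cases hxA : x ∈ A
        · rw [hs u x, hs v x, ht x hxA u hu, ht x hxA v hv]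
        · exact hx x (Finset.mem_sdiff.2 ⟨hxS, hxA⟩) hxu hxv
      · obtain ⟨a, ha⟩ := Finset.card_eq_one.1 (show A.card = 1 by omega)
        obtain ⟨b, hb⟩ := Finset.card_eq_one.1 (show (S \ A).card = 1 by omega)
        have haA : a ∈ A := by rw [ha]; exact Finset.mem_singleton_self a
        have hbB : b ∈ S \ A := by rw [hb]; exact Finset.mem_singleton_self b
        refine ⟨a, hAS haA, b, Finset.sdiff_subset hbB, ?_, ?_⟩
        · rintro rfl
          exact (Finset.mem_sdiff.1 hbB).2 haA
        · intro x hxS hxa hxb
          exfalso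
          by_cases hxA : x ∈ A
          · rw [ha, Finset.mem_singleton] at hxA
            exact hxa hxA
          · have : x ∈ S \ A := Finset.mem_sdiff.2 ⟨hxS, hxA⟩
            rw [hb, Finset.mem_singleton] at this
            exact hxb this

end cograph

section tree

/-- The data: `H` = the matrix of the graph, `M` = the inverse of the reduced Laplacian of `H` with
root `r`, extended by a zero row at `r`. -/
structure Data {V : Type} [Fintype V] [DecidableEq V] (r : V) (H M : V → V → ZMod 2) : Prop where
  symH : ∀ u v, H u v = H v u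
  symM : ∀ u v, M u v = M v u
  zero : ∀ x, M r x = 0
  inv : ∀ u, u ≠ r → ∀ v, ∑ w, H u w * (M u v + M w v) = if u = v then 1 else 0
  pairs : ∀ u v, u ≠ v → M u u = M v v → M u v ≠ M u u →
    ∃ g, M g g ≠ M u u ∧ M g u = M g g ∧ M g v = M g g ∧ ∀ x, M u x = M v x → M g x = M u x
  p4 : P4Free M

variable {V : Type} [Fintype V] [DecidableEq V] {r : V} {H M : V → V → ZMod 2}

/-- rows which differ only at `u` give a leaf at `u` -/
theorem Data.leaf (D : Data r H M) {u g : V} (hu : u ≠ r) (hug : u ≠ g)
    (hrow : ∀ x, M u x + M g x = if x = u then 1 else 0) :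
    ∀ w, w ≠ u → (H u w = if w = g then 1 else 0) := by
  have key : ∀ w, w ≠ r → ∑ x, H w x * ((if w = u then 1 else 0) + (if x = u then 1 else 0)) =
      (if w = u then (1 : ZMod 2) else 0) + (if w = g then 1 else 0) := by
    intro w hw
    have e1 := D.inv w hw u
    have e2 := D.inv w hw g
    refine Eq.trans ?_ (congrArg₂ (· + ·) e1 e2)
    rw [← Finset.sum_add_distrib]
    refine Finset.sum_congr rfl fun x _ => ?_
    have f1 := hrow w
    have f2 := hrow x
    rw [D.symM u w, D.symM g w] at f1
    rw [D.symM u x, D.symM g x] at f2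
    rw [← f1, ← f2]
    ring
  have h1 : ∀ w, w ≠ r → w ≠ u → H u w = if w = g then 1 else 0 := by
    intro w hw hwu
    have h2 := key w hw
    rw [if_neg hwu, zero_add] at h2
    rw [← h2, Finset.sum_eq_single u]
    · rw [if_pos rfl, zero_add, mul_one, D.symH]
    · intro x _ hx
      rw [if_neg hx, zero_add, mul_zero]
    · intro h0
      exact absurd (Finset.mem_univ u) h0
  intro w hwu
  by_cases hw : w = r
  · subst hw
    have h2 := key u hu
    rw [if_pos rfl, if_neg hug, add_zero] at h2
    have h3 : ∑ x, H u x * ((1 : ZMod 2) + (if x = u then 1 else 0)) =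
        H u w + ∑ x ∈ (Finset.univ.erase u).erase w, H u x := by
      rw [← Finset.add_sum_erase _ _ (Finset.mem_univ u), if_pos rfl,
        show (1 : ZMod 2) + 1 = 0 from by decide, mul_zero, zero_add,
        ← Finset.add_sum_erase _ _ (Finset.mem_erase.2 ⟨hwu, Finset.mem_univ w⟩), if_neg hwu,
        add_zero, mul_one]
      congr 1
      refine Finset.sum_congr rfl fun x hx => ?_
      rw [if_neg (Finset.ne_of_mem_erase (Finset.mem_of_mem_erase hx)), add_zero, mul_one]
    rw [h3] at h2
    have h4 : ∑ x ∈ (Finset.univ.erase u).erase w, H u x = if w = g then 0 else 1 := by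
      by_cases hwg : w = g
      · rw [if_pos hwg]
        apply Finset.sum_eq_zero
        intro x hx
        have hxw : x ≠ w := Finset.ne_of_mem_erase hx
        rw [h1 x hxw (Finset.ne_of_mem_erase (Finset.mem_of_mem_erase hx)), if_neg]
        rw [← hwg]
        exact hxw
      · rw [if_neg hwg]
        rw [Finset.sum_eq_single g]
        · rw [h1 g (Ne.symm hwg) (Ne.symm hug), if_pos rfl]
        · intro x hx hxg
          rw [h1 x (Finset.ne_of_mem_erase hx)
            (Finset.ne_of_mem_erase (Finset.mem_of_mem_erase hx)), if_neg hxg]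
        · intro h0
          exfalso
          apply h0
          exact Finset.mem_erase.2 ⟨Ne.symm hwg, Finset.mem_erase.2 ⟨Ne.symm hug,
            Finset.mem_univ g⟩⟩
    rw [h4] at h2
    by_cases hwg : w = g
    · rw [if_pos hwg] at h2 ⊢
      rw [add_zero] at h2
      exact h2
    · rw [if_neg hwg] at h2 ⊢
      revert h2
      generalize H u w = s
      revert s
      decide
  · exact h1 w hw hwu

/-- there is a row relation of leaf type -/
theorem Data.exists_leaf (D : Data r H M) (hcard : 2 ≤ Fintype.card V) :
    ∃ u g, u ≠ r ∧ u ≠ g ∧ ∀ x, M u x + M g x = if x = u then 1 else 0 := by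
  have hS : (Finset.univ.erase r).card = Fintype.card V - 1 := by
    rw [Finset.card_erase_of_mem (Finset.mem_univ r), Finset.card_univ]
  by_cases h3 : 3 ≤ Fintype.card V
  · obtain ⟨u, hu, v, hv, huv, hx⟩ := exists_twins M D.symM D.p4 _ (Finset.univ.erase r) rfl
      (by omega)
    have hur : u ≠ r := Finset.ne_of_mem_erase hu
    have hvr : v ≠ r := Finset.ne_of_mem_erase hv
    have hall : ∀ x, x ≠ u → x ≠ v → M u x = M v x := by
      intro x hxu hxv
      by_cases hxr : x = r
      · rw [hxr, D.symM u r, D.symM v r, D.zero, D.zero]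
      · exact hx x (Finset.mem_erase.2 ⟨hxr, Finset.mem_univ x⟩) hxu hxv
    by_cases hc : M u u = M v v
    · by_cases huv2 : M u v = M u u
      · exfalso
        have hrow : ∀ x, M u x = M v x := by
          intro x
          by_cases hxu : x = u
          · rw [hxu, D.symM v u, huv2]
          · by_cases hxv : x = v
            · rw [hxv, huv2, hc]
            · exact hall x hxu hxv
        have h1 := D.inv u hur u
        have h2 := D.inv u hur v
        rw [if_neg huv] at h2
        rw [if_pos rfl] at h1
        have h4 : ∑ w, H u w * (M u u + M w u) = ∑ w, H u w * (M u v + M w v) := by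
          refine Finset.sum_congr rfl fun w _ => ?_
          rw [D.symM w u, D.symM w v, hrow w, D.symM u v, ← hrow u]
        rw [h4, h2] at h1
        exact absurd h1 (by decide)
      · obtain ⟨g, hg1, hg2, hg3, hg4⟩ := D.pairs u v huv hc huv2
        refine ⟨u, g, hur, ?_, ?_⟩
        · rintro rfl
          exact hg1 rfl
        · intro x
          by_cases hxu : x = u
          · subst hxu
            rw [if_pos rfl, hg2]
            revert hg1
            generalize M g g = a
            generalize M x x = b
            revert a b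
            decide
          · rw [if_neg hxu]
            by_cases hxv : x = v
            · subst hxv
              rw [hg3, z2_ne_ne huv2 hg1]
              exact z2_add_self _
            · rw [hg4 x (hall x hxu hxv)]
              exact z2_add_self _
    · rcases em (M u v = M v v) with h1 | h1
      · refine ⟨u, v, hur, huv, ?_⟩
        intro x
        by_cases hxu : x = u
        · subst hxu
          rw [if_pos rfl, D.symM v x, h1]
          revert hc
          generalize M x x = a
          generalize M v v = b
          revert a b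
          decide
        · rw [if_neg hxu]
          by_cases hxv : x = v
          · subst hxv
            rw [h1]
            exact z2_add_self _
          · rw [hall x hxu hxv]
            exact z2_add_self _
      · have h2 : M u v = M u u := z2_ne_ne h1 hc
        refine ⟨v, u, hvr, Ne.symm huv, ?_⟩
        intro x
        by_cases hxv : x = v
        · subst hxv
          rw [if_pos rfl, h2]
          revert hc
          generalize M x x = a
          generalize M u u = b
          revert a b
          decide
        · rw [if_neg hxv]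
          by_cases hxu : x = u
          · subst hxu
            rw [D.symM v x, h2]
            exact z2_add_self _
          · rw [hall x hxu hxv]
            exact z2_add_self _
  · -- two vertices
    obtain ⟨u, hu⟩ := Finset.card_eq_one.1 (show (Finset.univ.erase r).card = 1 by omega)
    have hur : u ≠ r := by
      have : u ∈ Finset.univ.erase r := by rw [hu]; exact Finset.mem_singleton_self u
      exact Finset.ne_of_mem_erase this
    have hall : ∀ x, x = u ∨ x = r := by
      intro x
      by_cases hxr : x = r
      · exact Or.inr hxr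
      · left
        have : x ∈ Finset.univ.erase r := Finset.mem_erase.2 ⟨hxr, Finset.mem_univ x⟩
        rw [hu, Finset.mem_singleton] at this
        exact this
    refine ⟨u, r, hur, hur, ?_⟩
    intro x
    rw [D.zero, add_zero]
    rcases hall x with rfl | rfl
    · rw [if_pos rfl]
      by_contra hne
      have h0 : M x x = 0 := by
        rcases z2 (M x x) with h | h
        · exact h
        · exact absurd h hne
      have h1 := D.inv x hur x
      rw [if_pos rfl] at h1
      have h2 : ∑ w, H x w * (M x x + M w x) = 0 := by
        apply Finset.sum_eq_zero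
        intro w _
        rcases hall w with rfl | rfl
        · rw [h0, add_zero, mul_zero]
        · rw [D.zero, h0, add_zero, mul_zero]
      rw [h2] at h1
      exact absurd h1 (by decide)
    · rw [if_neg (Ne.symm hur), D.symM]
      exact D.zero u

/-- the data without the leaf -/
theorem Data.delete (D : Data r H M) {u g : V} (hu : u ≠ r) (hug : u ≠ g)
    (hrow : ∀ x, M u x + M g x = if x = u then 1 else 0) :
    Data (V := {v : V // v ≠ u}) ⟨r, Ne.symm hu⟩ (fun x y => H x.1 y.1) (fun x y => M x.1 y.1) := by
  have hleaf := D.leaf hu hug hrow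
  have hrow' : ∀ x, x ≠ u → M u x = M g x := by
    intro x hx
    have h1 := hrow x
    rw [if_neg hx] at h1
    revert h1
    generalize M u x = a
    generalize M g x = b
    revert a b
    decide
  refine ⟨fun x y => D.symH _ _, fun x y => D.symM _ _, fun x => D.zero _, ?_, ?_, ?_⟩
  · intro w hw v
    have hwr : (w : V) ≠ r := fun h0 => hw (Subtype.ext h0)
    have h1 := D.inv w.1 hwr v.1
    have h2 : ∑ x, H w.1 x * (M w.1 v.1 + M x v.1) =
        H w.1 u * (M w.1 v.1 + M u v.1) +
          ∑ x : {v : V // v ≠ u}, H w.1 x.1 * (M w.1 v.1 + M x.1 v.1) := by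
      exact Pool.Agent.H32.AA.sum_at u (Subtype.val : {v : V // v ≠ u} → V)
        Subtype.val_injective (fun v => by
          constructor
          · rintro ⟨x, rfl⟩
            exact x.2
          · intro hv
            exact ⟨⟨v, hv⟩, rfl⟩) _
    have h3 : H w.1 u * (M w.1 v.1 + M u v.1) = 0 := by
      rw [D.symH w.1 u, hleaf w.1 w.2]
      by_cases hwg : w.1 = g
      · rw [hwg, hrow' v.1 v.2, z2_add_self, mul_zero]
      · rw [if_neg hwg, zero_mul]
    rw [h2, h3, zero_add] at h1
    rw [h1]
    by_cases hwv : w = v
    · rw [if_pos hwv, if_pos (congrArg Subtype.val hwv)]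
    · rw [if_neg hwv, if_neg fun h0 => hwv (Subtype.ext h0)]
  · intro p q hpq hc hne
    obtain ⟨g', h1, h2, h3, h4⟩ := D.pairs p.1 q.1 (fun h0 => hpq (Subtype.ext h0)) hc hne
    by_cases hg' : g' = u
    · exfalso
      subst hg'
      have e1 : M p.1 g = M g' p.1 := by
        rw [D.symM p.1 g, ← hrow' p.1 p.2]
      have e2 : M q.1 g = M g' q.1 := by
        rw [D.symM q.1 g, ← hrow' q.1 q.2]
      have e3 : M p.1 g = M q.1 g := by rw [e1, e2, h2, h3]
      have e4 := h4 g e3
      have e5 := hrow g'
      rw [if_pos rfl, D.symM g g', e4, e1, h2, z2_add_self] at e5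
      exact absurd e5 (by decide)
    · exact ⟨⟨g', hg'⟩, h1, h2, h3, fun x hx => h4 x.1 hx⟩
  · intro a b c d h1 h2 h3 h4 h5 h6
    exact D.p4 a.1 b.1 c.1 d.1 h1 h2 h3 h4 h5 h6

/-- **Tree.** -/
theorem tree_of_p4free_aux : ∀ (n : ℕ) (V : Type) [Fintype V] [DecidableEq V] (r : V)
    (H M : V → V → ZMod 2) (G : SimpleGraph V), Fintype.card V = n → Data r H M →
    (∀ u v, G.Adj u v ↔ u ≠ v ∧ H u v = 1) → G.IsTree := by
  intro n
  induction n with
  | zero =>
    intro V _ _ r H M G hn D hG
    have := Fintype.card_pos_iff.2 ⟨r⟩
    omega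
  | succ n ih =>
    intro V _ _ r H M G hn D hG
    by_cases h2 : 2 ≤ Fintype.card V
    · obtain ⟨u, g, hu, hug, hrow⟩ := D.exists_leaf h2
      have D' := D.delete hu hug hrow
      have hleaf := D.leaf hu hug hrow
      have hcard : Fintype.card {v : V // v ≠ u} = n := by
        have := Fintype.card_subtype_compl (fun v : V => v = u)
        simp only [Fintype.card_subtype_eq] at this
        have h3 : Fintype.card {v : V // v ≠ u} = Fintype.card V - 1 := by
          rw [← this]
        omega
      set G' : SimpleGraph {v : V // v ≠ u} := G.comap Subtype.val with hG'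
      have hT := ih {v : V // v ≠ u} ⟨r, Ne.symm hu⟩ _ _ G' hcard D' (by
        intro x y
        rw [hG', SimpleGraph.comap_adj, hG]
        constructor
        · rintro ⟨h1, h3⟩
          exact ⟨fun h0 => h1 (congrArg Subtype.val h0), h3⟩
        · rintro ⟨h1, h3⟩
          exact ⟨fun h0 => h1 (Subtype.ext h0), h3⟩)
      refine Pool.Agent.H32.AA.isTree_add G G' hT u (Subtype.val : {v : V // v ≠ u} → V)
        Subtype.val_injective (fun v => by
          constructor
          · rintro ⟨x, rfl⟩
            exact x.2
          · intro hv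
            exact ⟨⟨v, hv⟩, rfl⟩) (fun x y => by rw [hG', SimpleGraph.comap_adj]) g
        (Ne.symm hug) ?_
      intro w
      rw [hG]
      constructor
      · rintro ⟨h1, h3⟩
        rw [hleaf w (Ne.symm h1)] at h3
        by_contra hwg
        rw [if_neg hwg] at h3
        exact absurd h3 (by decide)
      · rintro rfl
        exact ⟨hug, by rw [hleaf w (Ne.symm hug), if_pos rfl]⟩
    · have hsub : Subsingleton V := Fintype.card_le_one_iff_subsingleton.1 (by omega)
      refine ⟨?_, ?_⟩
      · rw [SimpleGraph.connected_iff]
        refine ⟨fun v w => ?_, ⟨r⟩⟩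
        rw [Subsingleton.elim v w]
      · apply Pool.Agent.H17.TR.acyclic_of_cut
        intro c d hcd
        exact absurd (Subsingleton.elim c d) hcd.ne

/-- **Tree.** The graph of the matrix `H` is a tree if the inverse `M` of its reduced Laplacian with
root `r` (with a zero row at `r`) has midpoints and no induced path on four vertices. -/
theorem tree_of_p4free {r : V} {H M : V → V → ZMod 2} (D : Data r H M) (G : SimpleGraph V)
    (hG : ∀ u v, G.Adj u v ↔ u ≠ v ∧ H u v = 1) : G.IsTree :=
  tree_of_p4free_aux _ V r H M G rfl D hG

end tree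

end Pool.Agent.H26.P3
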