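import Pool.Agent.H17.P3.Glue
import Pool.Agent.H26.P3.Tree

set_option autoImplicit false

/-!
The tree end (MP_a46c6f_co, target (C)).
-/

namespace Pool.Agent.H26.P3

open Pool.Agent.H17.P3 Pool.Agent.H17.TR

theorem tree_end : Pool.Agent.H17.P3.TreeEnd := by
  intro V _ _ e H M hH hM he hinv hp h4
  have D : Data e H M := ⟨hH, hM, he, hinv, fun u v _ h1 h2 => hp u v h1 h2,
    fun a b c d h1 h2 h3 h5 h6 h7 => h4 a b c d ⟨h1, h2, h3, h5, h6, h7⟩⟩
  refine tree_of_p4free D (GrH H) ?_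
  intro u v
  unfold GrH
  rw [SimpleGraph.fromRel_adj, hH v u, or_self]

end Pool.Agent.H26.P3
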